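import Pool.Agent.Helper99.EXC.GoalsE

set_option autoImplicit false

open Finset MeasureTheory ProbabilityTheory Filter
open scoped ENNReal

namespace Pool.Agent.Helper35.EXC

open _root_.Pool.Agent.Helper99.ERW _root_.Pool.Agent.Helper99.EXC

theorem measurable_coord (i : ℕ) : Measurable (fun σ : Stack 2 => σ (0, true) i) :=
  (measurable_pi_apply i).comp (measurable_pi_apply _)

theorem measurable_Vs (a : ℝ) : Measurable (Vs a) := by
  unfold Vs
  refine Measurable.ennreal_toReal (Measurable.tsum fun i => ?_)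
  have := measurable_coord i
  fun_prop

theorem measurable_Ts (a : ℝ) (j : ℕ) : Measurable (fun σ => Ts a σ j) := by
  unfold Ts
  refine Measurable.ennreal_toReal (Measurable.tsum fun i => ?_)
  have := measurable_coord (i + j)
  fun_prop

theorem measurable_Ss (a : ℝ) : Measurable (Ss a) := by
  unfold Ss
  refine Measurable.sub (Measurable.ennreal_toReal (Measurable.tsum fun i => ?_))
    (Measurable.ennreal_toReal (Measurable.tsum fun i => ?_))
  · have := measurable_coord i
    fun_prop
  · have := measurable_coord i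
    fun_prop

theorem measurable_aa {α : Type*} [MeasurableSpace α] {V : α → Site 2 → ℝ}
    (hV : ∀ z, Measurable (fun ω => V ω z)) (b k : ℕ) : Measurable (fun ω => aa (V ω) b k) := by
  unfold aa
  exact (Finset.measurable_sum _ fun z _ => hV z).div_const _

theorem measurable_bb {α : Type*} [MeasurableSpace α] {V : α → Site 2 → ℝ}
    (hV : ∀ z, Measurable (fun ω => V ω z)) (b k : ℕ) : Measurable (fun ω => bb (V ω) b k) := by
  unfold bb
  exact (Finset.measurable_sum _ fun z _ => (hV z).pow_const 2).div_const _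

theorem measurable_tt {α : Type*} [MeasurableSpace α] {V : α → Site 2 → ℝ}
    (hV : ∀ z, Measurable (fun ω => V ω z)) (b k s : ℕ) :
    Measurable (fun ω => Helper99.EXC.tt (V ω) b k s) := by
  unfold Helper99.EXC.tt
  exact Finset.measurable_sum _ fun z _ => (hV z).const_mul _

theorem measurable_ww {α : Type*} [MeasurableSpace α] {V : α → Site 2 → ℝ}
    (hV : ∀ z, Measurable (fun ω => V ω z)) (b s : ℕ) :
    Measurable (fun ω => ww (V ω) b s) := by
  unfold ww
  exact Finset.measurable_sum _ fun z _ => (hV z).div_const _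

theorem measurable_ee {α : Type*} [MeasurableSpace α] {Tl : α → Site 2 → ℕ → ℝ}
    (hT : ∀ z j, Measurable (fun ω => Tl ω z j)) (b J k : ℕ) :
    Measurable (fun ω => ee (Tl ω) b J k) := by
  unfold ee
  exact (Finset.measurable_sum _ fun z _ => hT z J).div_const _

theorem measurable_qq {α : Type*} [MeasurableSpace α] {V : α → Site 2 → ℝ}
    (hV : ∀ z, Measurable (fun ω => V ω z)) (b k s : ℕ) :
    Measurable (fun ω => qq (V ω) b k s) := by
  unfold qq
  exact ((measurable_bb hV b k).const_add 1).add ((measurable_tt hV b k s).pow_const 2)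

theorem measurable_ci {α : Type*} [MeasurableSpace α] {Si : α → Site 2 → ℝ}
    (hS : ∀ z, Measurable (fun ω => Si ω z)) (Φ : ℕ → Site 2 → ℝ) (b k : ℕ) :
    Measurable (fun ω => ci Φ (Si ω) b k) := by
  unfold ci
  exact Finset.measurable_sum _ fun z _ => (hS z).const_mul _

theorem measurable_uu {α : Type*} [MeasurableSpace α] {V : α → Site 2 → ℝ}
    {Tl : α → Site 2 → ℕ → ℝ} {Si : α → Site 2 → ℝ}
    (hV : ∀ z, Measurable (fun ω => V ω z)) (hT : ∀ z j, Measurable (fun ω => Tl ω z j))
    (hS : ∀ z, Measurable (fun ω => Si ω z)) (Φ : ℕ → Site 2 → ℝ) (b J k s : ℕ) :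
    Measurable (fun ω => uu (V ω) (Tl ω) (Si ω) Φ b J k s) := by
  unfold uu
  have h1 := measurable_qq hV b k s
  have h2 := measurable_ee hT b J k
  have h3 := measurable_ww hV b s
  have h4 := measurable_aa hV b k
  have h5 := measurable_ci hS Φ b k
  fun_prop

theorem measurable_UU {α : Type*} [MeasurableSpace α] {V : α → Site 2 → ℝ}
    {Tl : α → Site 2 → ℕ → ℝ} {Si : α → Site 2 → ℝ}
    (hV : ∀ z, Measurable (fun ω => V ω z)) (hT : ∀ z j, Measurable (fun ω => Tl ω z j))
    (hS : ∀ z, Measurable (fun ω => Si ω z)) (Φ : ℕ → Site 2 → ℝ) (b J k1 s : ℕ) :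
    Measurable (fun ω => UU (V ω) (Tl ω) (Si ω) Φ b J k1 s) := by
  unfold UU
  exact Finset.measurable_sum _ fun k _ => measurable_uu hV hT hS Φ b J k s

theorem GME : GME_stmt := by
  intro a
  refine ⟨measurable_Vs a, measurable_Ts a, measurable_Ss a, ?_⟩
  intro Φ b k1 J δ M
  have hV : ∀ z, Measurable (fun ω : Env 2 => Vs a (ω z)) := fun z =>
    (measurable_Vs a).comp (measurable_pi_apply z)
  have hT : ∀ z j, Measurable (fun ω : Env 2 => Ts a (ω z) j) := fun z j =>
    (measurable_Ts a j).comp (measurable_pi_apply z)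
  have hS : ∀ z, Measurable (fun ω : Env 2 => Ss a (ω z)) := fun z =>
    (measurable_Ss a).comp (measurable_pi_apply z)
  have hGS : ∀ s, MeasurableSet {ω : Env 2 | GS a Φ b k1 J δ M s ω} := by
    intro s
    have h1 := measurable_UU hV hT hS Φ b J k1 s
    have h2 := measurable_ww hV b s
    exact (measurableSet_le h1 measurable_const).inter (measurableSet_le h2 measurable_const)
  refine ⟨hGS, ?_⟩
  have h3 : MeasurableSet {ω : Env 2 | ∀ z, ∑' i, ENNReal.ofReal |2 * ω z (0, true) i - a| ≠ ∞} := by
    rw [Set.ofPred_forall]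
    refine MeasurableSet.iInter fun z => ?_
    have hm : Measurable (fun ω : Env 2 => ∑' i, ENNReal.ofReal |2 * ω z (0, true) i - a|) := by
      refine Measurable.tsum fun i => ?_
      have : Measurable (fun ω : Env 2 => ω z (0, true) i) :=
        (measurable_coord i).comp (measurable_pi_apply z)
      fun_prop
    exact (hm (measurableSet_singleton ∞)).compl
  have h4 : MeasurableSet {ω : Env 2 | ∃ᶠ s in atTop, GS a Φ b k1 J δ M s ω} := by
    have : {ω : Env 2 | ∃ᶠ s in atTop, GS a Φ b k1 J δ M s ω} =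
        ⋂ n : ℕ, ⋃ s : ℕ, ⋃ _ : n ≤ s, {ω : Env 2 | GS a Φ b k1 J δ M s ω} := by
      ext ω
      simp only [Set.mem_ofPred_eq, frequently_atTop, Set.mem_iInter, Set.mem_iUnion]
      constructor
      · intro h n
        obtain ⟨s, hs, hg⟩ := h n
        exact ⟨s, hs, hg⟩
      · intro h n
        obtain ⟨s, hs, hg⟩ := h n
        exact ⟨s, hs, hg⟩
    rw [this]
    exact MeasurableSet.iInter fun n => MeasurableSet.iUnion fun s =>
      MeasurableSet.iUnion fun _ => hGS s
  exact h3.inter h4

end Pool.Agent.Helper35.EXC
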