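import Pool.Agent.Helper35.EXC.GME

set_option autoImplicit false

open Finset MeasureTheory ProbabilityTheory Filter
open scoped ENNReal

namespace Pool.Agent.Helper35.EXC

open _root_.Pool.Agent.Helper99.ERW _root_.Pool.Agent.Helper99.EXC

theorem tsum_ofReal_le {x : ℕ → ℝ} {W : ℝ} (h0 : ∀ i, 0 ≤ x i)
    (h : ∀ j : ℕ, ∑ i ∈ range j, x i ≤ W) : ∑' i, ENNReal.ofReal (x i) ≤ ENNReal.ofReal W := by
  refine ENNReal.tsum_le_of_sum_range_le fun n => ?_
  rw [← ENNReal.ofReal_sum_of_nonneg fun i _ => h0 i]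
  exact ENNReal.ofReal_le_ofReal (h n)

theorem pointwise (a : ℝ) (σ : Stack 2) (W : ℝ)
    (h : ∀ j : ℕ, ∑ i ∈ range j, |2 * σ (0, true) i - a| ≤ W) :
    ∑' i, ENNReal.ofReal |2 * σ (0, true) i - a| ≠ ∞ ∧ Vs a σ ≤ W ∧
    |Ss a σ| ≤ W ∧ ∀ j, 0 ≤ Ts a σ j ∧ Ts a σ j ≤ Vs a σ := by
  have hW : 0 ≤ W := by simpa using h 0
  have h1 : ∑' i, ENNReal.ofReal |2 * σ (0, true) i - a| ≤ ENNReal.ofReal W :=
    tsum_ofReal_le (fun i => abs_nonneg _) h
  have h2 : ∑' i, ENNReal.ofReal |2 * σ (0, true) i - a| ≠ ∞ :=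
    ne_top_of_le_ne_top ENNReal.ofReal_ne_top h1
  have h3 : Vs a σ ≤ W := by
    unfold Vs
    exact ENNReal.toReal_le_of_le_ofReal hW h1
  refine ⟨h2, h3, ?_, ?_⟩
  · have hsum : (∑' i, ENNReal.ofReal (2 * σ (0, true) i - a)) +
        (∑' i, ENNReal.ofReal (a - 2 * σ (0, true) i)) =
        ∑' i, ENNReal.ofReal |2 * σ (0, true) i - a| := by
      rw [← ENNReal.tsum_add]
      refine tsum_congr fun i => ?_
      rcases le_total 0 (2 * σ (0, true) i - a) with hx | hx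
      · rw [abs_of_nonneg hx, ENNReal.ofReal_of_nonpos (p := a - 2 * σ (0, true) i) (by linarith),
          add_zero]
      · rw [abs_of_nonpos hx, ENNReal.ofReal_of_nonpos hx, zero_add]
        congr 1
        ring
    have hA : (∑' i, ENNReal.ofReal (2 * σ (0, true) i - a)) ≠ ∞ :=
      ne_top_of_le_ne_top h2 (hsum ▸ le_self_add)
    have hB : (∑' i, ENNReal.ofReal (a - 2 * σ (0, true) i)) ≠ ∞ :=
      ne_top_of_le_ne_top h2 (hsum ▸ le_add_self)
    have hV : Vs a σ = (∑' i, ENNReal.ofReal (2 * σ (0, true) i - a)).toReal +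
        (∑' i, ENNReal.ofReal (a - 2 * σ (0, true) i)).toReal := by
      rw [← ENNReal.toReal_add hA hB, hsum]
      rfl
    have hp1 : 0 ≤ (∑' i, ENNReal.ofReal (2 * σ (0, true) i - a)).toReal := ENNReal.toReal_nonneg
    have hp2 : 0 ≤ (∑' i, ENNReal.ofReal (a - 2 * σ (0, true) i)).toReal := ENNReal.toReal_nonneg
    unfold Ss
    rw [abs_le]
    constructor <;> linarith
  · intro j
    refine ⟨ENNReal.toReal_nonneg, ?_⟩
    unfold Ts Vs
    refine ENNReal.toReal_mono h2 ?_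
    exact ENNReal.tsum_comp_le_tsum_of_injective (add_left_injective j)
      (fun i => ENNReal.ofReal |2 * σ (0, true) i - a|)

theorem Ts_tendsto (a : ℝ) (σ : Stack 2) (h : ∑' i, ENNReal.ofReal |2 * σ (0, true) i - a| ≠ ∞) :
    Tendsto (fun J => Ts a σ J) atTop (nhds 0) := by
  have h1 := ENNReal.tendsto_sum_nat_add (fun i => ENNReal.ofReal |2 * σ (0, true) i - a|) h
  have h2 := (ENNReal.tendsto_toReal ENNReal.zero_ne_top).comp h1
  simpa [Ts, Function.comp_def] using h2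

theorem TJZ : TJZ_stmt := by
  intro P _ a W hW hae
  have h1 : ∀ᵐ ω ∂P, ∑' i, ENNReal.ofReal |2 * ω 0 (0, true) i - a| ≠ ∞ ∧ Vs a (ω 0) ≤ W (ω 0) ∧
      |Ss a (ω 0)| ≤ W (ω 0) ∧ ∀ j, 0 ≤ Ts a (ω 0) j ∧ Ts a (ω 0) j ≤ Vs a (ω 0) := by
    filter_upwards [hae] with ω hω
    exact pointwise a (ω 0) (W (ω 0)) hω
  refine ⟨h1, ?_⟩
  have h0 : (0 : ℝ) = ∫ ω : Env 2, (0 : ℝ) ∂P := by simp
  rw [h0]
  refine tendsto_integral_of_dominated_convergence (fun ω : Env 2 => W (ω 0) ^ 2) ?_ ?_ ?_ ?_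
  · intro J
    exact (((measurable_Ts a J).comp (measurable_pi_apply 0)).pow_const 2).aestronglyMeasurable
  · exact hW.integrable_sq
  · intro J
    filter_upwards [h1] with ω hω
    obtain ⟨-, h2, -, h3⟩ := hω
    rw [Real.norm_eq_abs, abs_pow, abs_of_nonneg (h3 J).1]
    exact pow_le_pow_left₀ (h3 J).1 ((h3 J).2.trans h2) 2
  · filter_upwards [h1] with ω hω
    have := (Ts_tendsto a (ω 0) hω.1).pow 2
    simpa using this

end Pool.Agent.Helper35.EXC
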